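import Pool.Agent.Results.MP_f73734_co.HamiltonCubeCount
import Pool.Agent.Y161.HQ.Num

/-!
# Hamiltonian circuits of the hypercube: an explicit constant

For every `k` with `0 < k < 1 / (4 e)` the number `f n` of the Hamiltonian circuits of the cube `Q_n`
is larger than `(k n) ^ (2 ^ n)` for all large `n`: so `liminf f(n) ^ (1 / 2 ^ n) / n ≥ 1 / (4 e)`,
which is one quarter of the conjectured value `1 / e` of the limit.
-/

set_option autoImplicit false

namespace Pool.Agent.Results.MP_f73734_co.ExplicitConstant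

open Pool.Agent.Helper886.HCube

/-- The `n`-dimensional cube graph `Q_n`: the vertices are the 0-1 vectors of length `n`, and two
vertices are adjacent when they differ in exactly one coordinate. -/
def cube (n : ℕ) : SimpleGraph (Fin n → Bool) where
  Adj x y := ∃! i, x i ≠ y i
  symm := ⟨by
    rintro x y ⟨i, hi, hu⟩
    exact ⟨i, hi.symm, fun j hj => hu j (Ne.symm hj)⟩⟩
  loopless := ⟨by
    rintro x ⟨i, hi, _⟩
    exact hi rfl⟩

/-- `f n`: the number of Hamiltonian circuits of `Q_n`, each counted once as a subgraph (the subgraph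
formed by the vertices and edges of a closed walk which is a Hamiltonian cycle). -/
noncomputable def f (n : ℕ) : ℕ :=
  Nat.card {H : (cube n).Subgraph //
    ∃ (v : Fin n → Bool) (p : (cube n).Walk v v), p.IsHamiltonianCycle ∧ p.toSubgraph = H}

theorem f_eq (n : ℕ) : f n = Pool.Agent.Results.MP_f73734_co.HamiltonCubeCount.f n := rfl

/-- **Hamiltonian circuits of the hypercube, explicit constant.** For every `k` with
`0 < k < 1 / (4 e)` one has `f n > (k n) ^ (2 ^ n)` for all sufficiently large `n`. -/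
theorem result (k : ℝ) (hk0 : 0 < k) (hk : k < 1 / (4 * Real.exp 1)) :
    ∃ n₀ : ℕ, ∀ n : ℕ, n₀ ≤ n → (k * (n : ℝ)) ^ (2 ^ n) < (f n : ℝ) := by
  obtain ⟨n₀, hn₀⟩ := Pool.Agent.Y161.HQ.numeric k hk0 hk
  refine ⟨n₀, fun n hn => ?_⟩
  obtain ⟨c, d, h, hnn, hd, hlt⟩ := hn₀ n hn
  refine hlt.trans_le ((card_Ch hd).trans ?_)
  rw [f_eq]
  exact_mod_cast Pool.Agent.Results.MP_f73734_co.HamiltonCubeCount.card_le c d h n hnn hd

end Pool.Agent.Results.MP_f73734_co.ExplicitConstant
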